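import Mathlib

/-!
# Smooth dg algebras (definitions)

Plain, statement level definitions: dg algebras over `ℂ`, dg bimodules over them, finite semi-free
dg bimodules, quasi-isomorphisms to the diagonal bimodule, smooth dg algebras and `H_0` of a
connective dg algebra. All gradings are homological (`d` has degree `-1`).
-/

open scoped TensorProduct

set_option autoImplicit false

namespace Pool.Agent.Lib.MP_e7fbd4_ag.Off

/-- The axioms of a dg algebra: the algebra `A` is the direct sum of the subspaces `A_n`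
(`n ∈ ℤ`), `1 ∈ A_0`, `A_m A_n ⊆ A_{m+n}`, `d A_n ⊆ A_{n-1}`, `d (d a) = 0` and
`d (a b) = (d a) b + (-1)^n a (d b)` for `a ∈ A_n`. -/
structure IsDGAlgebra {A : Type} [Ring A] [Algebra ℂ A] (gr : ℤ → Submodule ℂ A)
    (d : A →ₗ[ℂ] A) : Prop where
  internal : DirectSum.IsInternal gr
  one_mem : (1 : A) ∈ gr 0
  mul_mem : ∀ (m n : ℤ) (a b : A), a ∈ gr m → b ∈ gr n → a * b ∈ gr (m + n)
  d_mem : ∀ (n : ℤ) (a : A), a ∈ gr n → d a ∈ gr (n - 1)
  d_d : ∀ a : A, d (d a) = 0
  d_mul : ∀ (n : ℤ) (a b : A), a ∈ gr n → d (a * b) = d a * b + (-1 : ℂ) ^ n • (a * d b)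

/-- A differential graded algebra over `ℂ`: an associative unital `ℂ`-algebra `A` with a grading
`A_n` (`n ∈ ℤ`) and a `ℂ`-linear differential `d`. -/
structure DGAlgebra where
  /-- the algebra -/
  A : Type
  [ring : Ring A]
  [algebra : Algebra ℂ A]
  /-- the grading -/
  gr : ℤ → Submodule ℂ A
  /-- the differential -/
  d : A →ₗ[ℂ] A
  ax : IsDGAlgebra gr d

attribute [instance] DGAlgebra.ring DGAlgebra.algebra

/-- `(a, m) ↦ a m` is a `ℂ`-bilinear map `A × M → M`. -/
structure IsBilin {A M : Type} [Ring A] [Algebra ℂ A] [AddCommGroup M] [Module ℂ M]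
    (l : A → M → M) : Prop where
  add_left : ∀ (a b : A) (m : M), l (a + b) m = l a m + l b m
  add_right : ∀ (a : A) (m n : M), l a (m + n) = l a m + l a n
  smul_left : ∀ (c : ℂ) (a : A) (m : M), l (c • a) m = c • l a m
  smul_right : ∀ (c : ℂ) (a : A) (m : M), l a (c • m) = c • l a m

/-- `M` is a bimodule over the algebra `A`, with the left multiplication `l a m = a m` and the
right multiplication `r b m = m b`: both are bilinear, unital and associative, and
`a (m b) = (a m) b`. -/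
structure IsBimodule {A M : Type} [Ring A] [Algebra ℂ A] [AddCommGroup M] [Module ℂ M]
    (l r : A → M → M) : Prop where
  bilin_l : IsBilin l
  bilin_r : IsBilin r
  one_l : ∀ m : M, l 1 m = m
  one_r : ∀ m : M, r 1 m = m
  mul_l : ∀ (a b : A) (m : M), l (a * b) m = l a (l b m)
  mul_r : ∀ (a b : A) (m : M), r (a * b) m = r b (r a m)
  l_r : ∀ (a b : A) (m : M), l a (r b m) = r b (l a m)

/-- The axioms of a dg bimodule over the dg algebra `A`: `M` is a bimodule, the direct sum of the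
subspaces `M_n` (`n ∈ ℤ`), `A_i M_n ⊆ M_{i+n}`, `M_n A_i ⊆ M_{n+i}`, `d M_n ⊆ M_{n-1}`,
`d (d m) = 0`, `d (a m) = (d a) m + (-1)^i a (d m)` for `a ∈ A_i` and
`d (m b) = (d m) b + (-1)^n m (d b)` for `m ∈ M_n`. -/
structure IsDGBimodule (A : DGAlgebra) {M : Type} [AddCommGroup M] [Module ℂ M]
    (l r : A.A → M → M) (gr : ℤ → Submodule ℂ M) (d : M →ₗ[ℂ] M) : Prop where
  bimod : IsBimodule l r
  internal : DirectSum.IsInternal gr
  l_mem : ∀ (i n : ℤ) (a : A.A) (m : M), a ∈ A.gr i → m ∈ gr n → l a m ∈ gr (i + n)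
  r_mem : ∀ (i n : ℤ) (b : A.A) (m : M), b ∈ A.gr i → m ∈ gr n → r b m ∈ gr (n + i)
  d_mem : ∀ (n : ℤ) (m : M), m ∈ gr n → d m ∈ gr (n - 1)
  d_d : ∀ m : M, d (d m) = 0
  d_l : ∀ (i : ℤ) (a : A.A) (m : M), a ∈ A.gr i →
    d (l a m) = l (A.d a) m + (-1 : ℂ) ^ i • l a (d m)
  d_r : ∀ (n : ℤ) (b : A.A) (m : M), m ∈ gr n →
    d (r b m) = r b (d m) + (-1 : ℂ) ^ n • r (A.d b) m

/-- A dg bimodule over the dg algebra `A`. -/
structure DGBimodule (A : DGAlgebra) where
  /-- the vector space -/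
  M : Type
  [acg : AddCommGroup M]
  [mod : Module ℂ M]
  /-- the left multiplication, `l a m = a m` -/
  l : A.A → M → M
  /-- the right multiplication, `r b m = m b` -/
  r : A.A → M → M
  /-- the grading -/
  gr : ℤ → Submodule ℂ M
  /-- the differential -/
  d : M →ₗ[ℂ] M
  ax : IsDGBimodule A l r gr d

attribute [instance] DGBimodule.acg DGBimodule.mod

/-- The linear map `f : P → A` is a quasi-isomorphism from the dg bimodule `P` to the diagonal
bimodule `A`: it is a homomorphism of bimodules, it preserves the grading, it commutes with the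
differentials and it induces a bijection on homology (`ker d / im d`). -/
structure IsQuasiIso {A : DGAlgebra} (P : DGBimodule A) (f : P.M →ₗ[ℂ] A.A) : Prop where
  map_l : ∀ (a : A.A) (m : P.M), f (P.l a m) = a * f m
  map_r : ∀ (b : A.A) (m : P.M), f (P.r b m) = f m * b
  map_gr : ∀ (n : ℤ) (m : P.M), m ∈ P.gr n → f m ∈ A.gr n
  map_d : ∀ m : P.M, f (P.d m) = A.d (f m)
  surj : ∀ x : A.A, A.d x = 0 → ∃ p : P.M, P.d p = 0 ∧ ∃ y : A.A, x = f p + A.d y
  inj : ∀ p : P.M, P.d p = 0 → (∃ y : A.A, f p = A.d y) → ∃ q : P.M, p = P.d q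

/-- The elements `e_j` (`j ∈ J`, a finite set) of degrees `δ_j` form a semi-free basis of the dg
bimodule `P`, with ranks `ρ_j ∈ ℕ`: the map `⨁_j A ⊗ A → P`, `a ⊗ b ↦ a e_j b` on the `j`-th
summand, is bijective, and `d e_j` lies in the sub-bimodule generated by the `e_i` with
`ρ_i < ρ_j`. -/
structure IsSemifreeBasis {A : DGAlgebra} (P : DGBimodule A) {J : Type} [Fintype J] (e : J → P.M)
    (δ : J → ℤ) (ρ : J → ℕ) : Prop where
  homog : ∀ j, e j ∈ P.gr (δ j)
  basis : ∃ S : J → (A.A ⊗[ℂ] A.A →ₗ[ℂ] P.M), (∀ j a b, S j (a ⊗ₜ b) = P.l a (P.r b (e j))) ∧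
    Function.Bijective fun t : J → A.A ⊗[ℂ] A.A => ∑ j, S j (t j)
  d_mem : ∀ j, P.d (e j) ∈ Submodule.span ℂ
    {m : P.M | ∃ i : J, ρ i < ρ j ∧ ∃ a b : A.A, m = P.l a (P.r b (e i))}

/-- A dg bimodule is finite semi-free if it has a finite semi-free basis. -/
def DGBimodule.FiniteSemifree {A : DGAlgebra} (P : DGBimodule A) : Prop :=
  ∃ (J : Type) (_ : Fintype J) (e : J → P.M) (δ : J → ℤ) (ρ : J → ℕ), IsSemifreeBasis P e δ ρ

/-- The dg algebra `A` is smooth, in the strong form: the diagonal bimodule has a finite semi-free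
resolution, that is, there is a quasi-isomorphism of dg bimodules from a finite semi-free dg
bimodule to `A`. (Finite semi-free dg bimodules are compact objects of the derived category of
bimodules, so the diagonal bimodule is then perfect.) -/
def DGAlgebra.IsSmooth (A : DGAlgebra) : Prop :=
  ∃ P : DGBimodule A, P.FiniteSemifree ∧ ∃ f : P.M →ₗ[ℂ] A.A, IsQuasiIso P f

/-- `A` is connective: `A_n = 0` for `n < 0`. -/
def DGAlgebra.IsConnective (A : DGAlgebra) : Prop := ∀ n : ℤ, n < 0 → A.gr n = ⊥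

/-- `π : A → R` exhibits the `ℂ`-algebra `R` as `H_0(A)` of the connective dg algebra `A`: it is a
homomorphism of dg algebras (`R` in degree `0`, with zero differential) and it induces a bijection
`A_0 / d A_1 → R`. -/
structure DGAlgebra.IsH0 (A : DGAlgebra) {R : Type} [Ring R] [Algebra ℂ R] (π : A.A →ₐ[ℂ] R) :
    Prop where
  deg : ∀ (n : ℤ) (a : A.A), n ≠ 0 → a ∈ A.gr n → π a = 0
  d : ∀ a : A.A, π (A.d a) = 0
  surj : ∀ x : R, ∃ a ∈ A.gr 0, π a = x
  ker : ∀ a ∈ A.gr 0, π a = 0 → ∃ b ∈ A.gr 1, A.d b = a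

end Pool.Agent.Lib.MP_e7fbd4_ag.Off
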