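import Pool.Agent.Lib.MP_e7fbd4_ag.Off.DG
import Pool.Agent.Lib.MP_e7fbd4_ag.Mg.G017

/-!
# The link between the two forms of the definitions of smooth dg algebras
-/

open scoped TensorProduct

set_option autoImplicit false

namespace Pool.Agent.Lib.MP_e7fbd4_ag.Off

/-- The dg algebra of the proof layer, as a dg algebra of the statement layer. -/
def ofDG (A : MP_e7fbd4_ag.DGAlgebra) : DGAlgebra where
  A := A.A
  gr := A.gr
  d := A.d
  ax := ⟨A.internal, A.one_mem, A.mul_mem, A.d_mem, A.d_d, A.d_mul⟩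

theorem isBilin_of {A M : Type} [Ring A] [Algebra ℂ A] [AddCommGroup M] [Module ℂ M]
    (l : A →ₗ[ℂ] M →ₗ[ℂ] M) : IsBilin fun a m => l a m where
  add_left a b m := by rw [map_add]; rfl
  add_right a m n := map_add _ _ _
  smul_left c a m := by rw [map_smul]; rfl
  smul_right c a m := map_smul _ _ _

/-- The same for dg bimodules. -/
def ofBimod {A : MP_e7fbd4_ag.DGAlgebra} (P : MP_e7fbd4_ag.DGBimodule A) :
    DGBimodule (ofDG A) where
  M := P.M
  l a m := P.l a m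
  r b m := P.r b m
  gr := P.gr
  d := P.d
  ax :=
    { bimod :=
        { bilin_l := isBilin_of P.l
          bilin_r := isBilin_of P.r
          one_l := P.one_l
          one_r := P.one_r
          mul_l := P.mul_l
          mul_r := P.mul_r
          l_r := P.l_r }
      internal := P.internal
      l_mem := P.l_mem
      r_mem := P.r_mem
      d_mem := P.d_mem
      d_d := P.d_d
      d_l := P.d_l
      d_r := P.d_r }

theorem ofBimod_finiteSemifree {A : MP_e7fbd4_ag.DGAlgebra} {P : MP_e7fbd4_ag.DGBimodule A}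
    (h : P.FiniteSemifree) : (ofBimod P).FiniteSemifree := by
  obtain ⟨J, hJ, e, δ, ρ, h1, h2, h3⟩ := h
  refine ⟨J, hJ, e, δ, ρ, ⟨h1, ⟨fun j => P.sandwich (e j), fun j a b => ?_, h2⟩, h3⟩⟩
  rfl

theorem ofDG_isSmooth {A : MP_e7fbd4_ag.DGAlgebra} (h : A.IsSmooth) : (ofDG A).IsSmooth := by
  obtain ⟨P, hP, f, hf⟩ := h
  exact ⟨ofBimod P, ofBimod_finiteSemifree hP, f,
    ⟨hf.map_l, hf.map_r, hf.map_gr, hf.map_d, hf.surj, hf.inj⟩⟩

theorem ofDG_isConnective {A : MP_e7fbd4_ag.DGAlgebra} (h : A.IsConnective) :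
    (ofDG A).IsConnective := h

theorem ofDG_isH0 {A : MP_e7fbd4_ag.DGAlgebra} {R : Type} [Ring R] [Algebra ℂ R]
    {π : A.A →ₐ[ℂ] R} (h : A.IsH0 π) : (ofDG A).IsH0 (R := R) π := ⟨h.deg, h.d, h.surj, h.ker⟩

/-- There is a smooth connective dg algebra `A` with `H_0(A) = R`. -/
theorem exists_smooth_R :
    ∃ A : DGAlgebra, A.IsSmooth ∧ A.IsConnective ∧ ∃ π : A.A →ₐ[ℂ] R, A.IsH0 π := by
  obtain ⟨A, h1, h2, π, h3⟩ := MP_e7fbd4_ag.exists_smooth_R
  exact ⟨ofDG A, ofDG_isSmooth h1, ofDG_isConnective h2, π, ofDG_isH0 h3⟩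

end Pool.Agent.Lib.MP_e7fbd4_ag.Off
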